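import Pool.Agent.helper19.HF.SpecC

/-! # Row hz:EXZ (MP_bf63dc_nt): the extremal step over the integers -/

set_option autoImplicit false

open Finset

namespace Pool.Agent.HF

theorem EXZ : EXZ_stmt := by
  intro hFEZ g D c d ε hD hLow hε
  have hF : ∀ r : ℕ, ∃ γ : ℝ, 0 ≤ γ ∧ γ ≤ 1 ∧
      (∀ l : ℕ, ∃ Y : ℤ, (D : ℤ) ∣ Y - c ∧ (cz g Y (D * r) l : ℝ) ≤ γ * l) ∧
      ∀ ε : ℝ, 0 < ε → ∃ l₀ : ℕ, ∀ l : ℕ, l₀ ≤ l → ∀ Y : ℤ, (D : ℤ) ∣ Y - c → (γ - ε) * l ≤ cz g Y (D * r) l := by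
    intro r
    refine hFEZ g (fun Y => (D : ℤ) ∣ Y - c) (D * r) ⟨c, by simp⟩ (fun Y hY => ?_)
    have h1 : Y + ((D * r : ℕ) : ℤ) - c = (Y - c) + D * r := by
      push_cast
      ring
    rw [h1]
    exact dvd_add hY (dvd_mul_right _ _)
  choose γ h0 h1 hlow hhigh using hF
  -- the infimum
  set S : Set ℝ := {x | ∃ r : ℕ, 1 ≤ r ∧ x = γ r} with hS
  have hSne : S.Nonempty := ⟨γ 1, 1, le_rfl, rfl⟩
  have hSb : BddBelow S := ⟨0, by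
    rintro x ⟨r, _, rfl⟩
    exact h0 r⟩
  have hinf0 : 0 ≤ sInf S := le_csInf hSne (by
    rintro x ⟨r, _, rfl⟩
    exact h0 r)
  have hinf1 : sInf S ≤ 1 := (csInf_le hSb ⟨1, le_rfl, rfl⟩).trans (h1 1)
  have hinfd : sInf S ≤ d := by
    obtain ⟨s₀, hs1, ⟨r₀, rfl⟩, hL⟩ := hLow
    have hr₀ : 1 ≤ r₀ := by
      rcases Nat.eq_zero_or_pos r₀ with h | h
      · rw [h, mul_zero] at hs1
        omega
      · exact h
    refine (csInf_le hSb ⟨r₀, hr₀, rfl⟩).trans ?_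
    by_contra hc
    push Not at hc
    obtain ⟨l₀, hl₀⟩ := hhigh r₀ ((γ r₀ - d) / 2) (by linarith)
    obtain ⟨l, hl, Y, hY, hYc⟩ := hL (l₀ + 1)
    have h2 := hl₀ l (by omega) Y hY
    have h3 : (1 : ℝ) ≤ l := by
      have : 1 ≤ l := by omega
      exact_mod_cast this
    nlinarith
  obtain ⟨x, ⟨r, hr, rfl⟩, hx⟩ := exists_lt_of_csInf_lt hSne (show sInf S < sInf S + ε by linarith)
  refine ⟨D * r, sInf S, Nat.one_le_iff_ne_zero.2 (Nat.mul_ne_zero (by omega) (by omega)), dvd_mul_right D r, hinf0, hinf1, hinfd, ?_, ?_⟩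
  · intro l
    obtain ⟨Y, hY, hYc⟩ := hlow r l
    refine ⟨Y, hY, hYc.trans ?_⟩
    exact mul_le_mul_of_nonneg_right hx.le (Nat.cast_nonneg l)
  · intro q hq
    obtain ⟨l₀, hl₀⟩ := hhigh (r * q) ε hε
    refine ⟨l₀, ?_⟩
    intro l hl Y hY
    have h2 := hl₀ l hl Y hY
    rw [← mul_assoc] at h2
    refine le_trans ?_ h2
    have h4 : sInf S ≤ γ (r * q) := csInf_le hSb ⟨r * q, Nat.one_le_iff_ne_zero.2 (Nat.mul_ne_zero (by omega) (by omega)), rfl⟩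
    exact mul_le_mul_of_nonneg_right (by linarith) (Nat.cast_nonneg l)

end Pool.Agent.HF
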