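import Pool.Agent.helper19.HF.SpecA

/-!
# Project HF (MP_bf63dc_nt), row LLB: the trivial bound (windows)
-/

set_option autoImplicit false

namespace Pool.Agent.HF

open Finset

open Classical in
theorem LLB_cnt (b : ℤ → Prop) (w : ℤ) (l : ℕ) : #{x ∈ range l | b (w + (x : ℕ))} = #{d ∈ Ico w (w + l) | b d} := by
  refine Finset.card_nbij' (fun x => w + (x : ℤ)) (fun d => (d - w).toNat) ?_ ?_ ?_ ?_
  · intro x hx
    simp only [Finset.coe_filter, Finset.mem_range, Set.mem_setOf_eq, Finset.mem_Ico] at hx ⊢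
    exact ⟨⟨by omega, by omega⟩, hx.2⟩
  · intro d hd
    simp only [Finset.coe_filter, Finset.mem_range, Set.mem_setOf_eq, Finset.mem_Ico] at hd ⊢
    obtain ⟨⟨h1, h2⟩, h3⟩ := hd
    have h4 : ((d - w).toNat : ℤ) = d - w := Int.toNat_of_nonneg (by omega)
    refine ⟨by omega, ?_⟩
    rw [h4]
    have : w + (d - w) = d := by ring
    rw [this]
    exact h3
  · intro x hx
    show (w + (x : ℤ) - w).toNat = x
    have : w + (x : ℤ) - w = x := by ring
    rw [this]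
    rfl
  · intro d hd
    simp only [Finset.coe_filter, Set.mem_setOf_eq, Finset.mem_Ico] at hd
    show w + (((d - w).toNat : ℕ) : ℤ) = d
    rw [Int.toNat_of_nonneg (by omega)]
    ring

open Classical in
theorem LLB_cnt' (b : ℤ → Prop) (v : ℤ) (l : ℕ) : #{x ∈ range l | b (v - (x : ℕ))} = #{d ∈ Ico (v + 1 - l) (v + 1) | b d} := by
  refine Finset.card_nbij' (fun x => v - (x : ℤ)) (fun d => (v - d).toNat) ?_ ?_ ?_ ?_
  · intro x hx
    simp only [Finset.coe_filter, Finset.mem_range, Set.mem_setOf_eq, Finset.mem_Ico] at hx ⊢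
    exact ⟨⟨by omega, by omega⟩, hx.2⟩
  · intro d hd
    simp only [Finset.coe_filter, Finset.mem_range, Set.mem_setOf_eq, Finset.mem_Ico] at hd ⊢
    obtain ⟨⟨h1, h2⟩, h3⟩ := hd
    have h4 : ((v - d).toNat : ℤ) = v - d := Int.toNat_of_nonneg (by omega)
    refine ⟨by omega, ?_⟩
    rw [h4]
    have : v - (v - d) = d := by ring
    rw [this]
    exact h3
  · intro x hx
    show (v - (v - (x : ℤ))).toNat = x
    have : v - (v - (x : ℤ)) = x := by ring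
    rw [this]
    rfl
  · intro d hd
    simp only [Finset.coe_filter, Set.mem_setOf_eq, Finset.mem_Ico] at hd
    show v - (((v - d).toNat : ℕ) : ℤ) = d
    rw [Int.toNat_of_nonneg (by omega)]
    ring

/-- lower bound for every window -/
theorem LLB_low (b : ℤ → Prop) (γ ε : ℝ) (l₀ R : ℕ) (h1 : γ ≤ 1) (hε : 0 < ε) (H : H1 b γ ε 1 l₀ R) (w : ℤ) (l : ℕ)
    (hw : -(R : ℤ) ≤ w) (hwl : w + l ≤ 2 * R) : (γ - ε) * l - l₀ ≤ (open Classical in (#{d ∈ Ico w (w + l) | b d} : ℝ)) := by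
  classical
  by_cases hl : l₀ ≤ l
  · have h := H 1 le_rfl le_rfl l hl w hw (by push_cast; linarith)
    have h2 : ∀ x : ℕ, w + ((1 : ℕ) : ℤ) * (x : ℤ) = w + (x : ℤ) := by intro x; push_cast; ring
    simp only [h2] at h
    rw [LLB_cnt] at h
    have : (0 : ℝ) ≤ l₀ := Nat.cast_nonneg _
    linarith
  · rw [not_le] at hl
    have h2 : (l : ℝ) ≤ l₀ := by exact_mod_cast hl.le
    have h3 : (0 : ℝ) ≤ l := Nat.cast_nonneg _
    have h4 : (γ - ε) * l ≤ 1 * l := mul_le_mul_of_nonneg_right (by linarith) h3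
    have h5 : (0 : ℝ) ≤ (open Classical in (#{d ∈ Ico w (w + l) | b d} : ℝ)) := Nat.cast_nonneg _
    linarith

/-- the middle window -/
theorem LLB_mid (b : ℤ → Prop) (γ ε : ℝ) (l₀ R : ℕ) (h1 : γ ≤ 1) (hε : 0 < ε) (H : H1 b γ ε 1 l₀ R) (H' : H2 b γ ε R) (c : ℕ) (hc : c ≤ R) :
    (open Classical in (#{d ∈ Ico (-(c : ℤ)) (-(c : ℤ) + R) | b d} : ℝ)) ≤ (γ + 3 * ε) * R + 2 * l₀ := by
  classical
  have hcR : ((R - c : ℕ) : ℤ) = (R : ℤ) - c := by
    push_cast [Nat.cast_sub hc]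
    ring
  have hcR' : ((R - c : ℕ) : ℝ) = (R : ℝ) - c := by
    rw [Nat.cast_sub hc]
  have e1 := LLB_low b γ ε l₀ R h1 hε H (-(R : ℤ)) (R - c) le_rfl (by omega)
  have e2 := LLB_low b γ ε l₀ R h1 hε H (-(c : ℤ) + R) c (by omega) (by omega)
  have e3 : -(R : ℤ) + ((R - c : ℕ) : ℤ) = -(c : ℤ) := by rw [hcR]; ring
  have e4 : -(c : ℤ) + R + c = R := by ring
  rw [e3, hcR'] at e1
  rw [e4] at e2
  have e5 : #{d ∈ Ico (-(R : ℤ)) R | b d} = #{d ∈ Ico (-(R : ℤ)) (-(c : ℤ)) | b d} + #{d ∈ Ico (-(c : ℤ)) (-(c : ℤ) + R) | b d} +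
      #{d ∈ Ico (-(c : ℤ) + R) R | b d} := by
    rw [← Finset.card_union_of_disjoint, ← Finset.card_union_of_disjoint]
    · congr 1
      ext d
      simp only [Finset.mem_union, Finset.mem_filter, Finset.mem_Ico]
      constructor
      · rintro ⟨h, hb⟩
        by_cases h2 : d < -(c : ℤ)
        · exact Or.inl (Or.inl ⟨⟨h.1, h2⟩, hb⟩)
        · by_cases h3 : d < -(c : ℤ) + R
          · exact Or.inl (Or.inr ⟨⟨by omega, h3⟩, hb⟩)
          · exact Or.inr ⟨⟨by omega, h.2⟩, hb⟩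
      · rintro ((⟨h, hb⟩ | ⟨h, hb⟩) | ⟨h, hb⟩)
        · exact ⟨⟨by omega, by omega⟩, hb⟩
        · exact ⟨⟨by omega, by omega⟩, hb⟩
        · exact ⟨⟨by omega, by omega⟩, hb⟩
    · rw [Finset.disjoint_left]
      intro d h2 h3
      simp only [Finset.mem_union, Finset.mem_filter, Finset.mem_Ico] at h2 h3
      omega
    · rw [Finset.disjoint_left]
      intro d h2 h3
      simp only [Finset.mem_filter, Finset.mem_Ico] at h2 h3
      omega
  have e6 : (#{d ∈ Ico (-(R : ℤ)) R | b d} : ℝ) = (#{d ∈ Ico (-(R : ℤ)) (-(c : ℤ)) | b d} : ℝ) + (#{d ∈ Ico (-(c : ℤ)) (-(c : ℤ) + R) | b d} : ℝ) +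
      (#{d ∈ Ico (-(c : ℤ) + R) R | b d} : ℝ) := by
    rw [e5]
    push_cast
    ring
  have e7 : (#{d ∈ Ico (-(R : ℤ)) R | b d} : ℝ) ≤ (γ + ε) * (2 * R) := H'
  nlinarith

/-- choice of a good index -/
theorem LLB_pick (e : ℝ) (he : 0 < e) (R : ℕ) (hR : 1 ≤ R) (a X : ℕ → ℝ) (ha : ∀ u, 0 ≤ a u) (hs : e * R ≤ ∑ u ∈ range R, a u)
    (h : ∑ u ∈ range R, a u * X u ≤ e ^ 2 / 8 * (R : ℝ) ^ 2) : ∃ u < R, X u ≤ e * R / 4 := by
  by_contra hcon
  push Not at hcon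
  have hR1 : (1 : ℝ) ≤ R := by exact_mod_cast hR
  have h1 : ∑ u ∈ range R, a u * (e * R / 4) ≤ ∑ u ∈ range R, a u * X u := by
    refine Finset.sum_le_sum fun u hu => ?_
    exact mul_le_mul_of_nonneg_left (hcon u (Finset.mem_range.1 hu)).le (ha u)
  rw [← Finset.sum_mul] at h1
  have h2 : e * R * (e * R / 4) ≤ (∑ u ∈ range R, a u) * (e * R / 4) := mul_le_mul_of_nonneg_right hs (by positivity)
  have h3 : 0 < e ^ 2 * (R : ℝ) ^ 2 := by positivity
  nlinarith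

open Classical in
/-- the estimate of a sum -/
theorem LLB_sum (R : ℕ) (p : ℕ → Prop) (a : ℕ → ℝ) (ha : ∀ u, 0 ≤ a u ∧ a u ≤ 1) (K : ℝ)
    (h : ∑ v ∈ range R, (if p v then 0 else a v) ≤ K) : ∑ v ∈ range R, a v ≤ (#{v ∈ range R | p v} : ℝ) + K := by
  have h1 : ∑ v ∈ range R, a v ≤ ∑ v ∈ range R, ((if p v then (1 : ℝ) else 0) + (if p v then 0 else a v)) := by
    refine Finset.sum_le_sum fun v _ => ?_
    by_cases hp : p v
    · rw [if_pos hp, if_pos hp, add_zero]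
      exact (ha v).2
    · rw [if_neg hp, if_neg hp, zero_add]
  rw [Finset.sum_add_distrib, Finset.sum_boole] at h1
  linarith

theorem LLB : LLB_stmt := by
  classical
  intro e he he1
  refine ⟨e / 12, e ^ 2 / 8, by positivity, by positivity, fun l₀ => ?_⟩
  obtain ⟨R₁, hR₁⟩ := exists_nat_ge (8 * (l₀ : ℝ) / e)
  refine ⟨max R₁ 1, fun R hR b γ h0 h1 H H' a a' ha ha' h3 => ?_⟩
  have hR1 : 1 ≤ R := (le_max_right _ _).trans hR
  have hR1' : (1 : ℝ) ≤ R := by exact_mod_cast hR1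
  have hl : 2 * (l₀ : ℝ) ≤ e / 4 * R := by
    have h4 : 8 * (l₀ : ℝ) / e ≤ R := hR₁.trans (by exact_mod_cast (le_max_left _ _).trans hR)
    rw [div_le_iff₀ he] at h4
    linarith
  have hmid : ∀ c : ℕ, c ≤ R → (#{d ∈ Ico (-(c : ℤ)) (-(c : ℤ) + R) | b d} : ℝ) ≤ (γ + e / 2) * R := by
    intro c hc
    have := LLB_mid b γ (e / 12) l₀ R h1 (by positivity) H H' c hc
    nlinarith
  have h3' : ∑ u ∈ range R, ∑ v ∈ range R, (if b ((v : ℤ) - u) then 0 else a u * a' v) ≤ e ^ 2 / 8 * (R : ℝ) ^ 2 := h3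
  refine ⟨fun hs => ?_, fun hs => ?_⟩
  · have h4 : ∑ u ∈ range R, a u * (∑ v ∈ range R, (if b ((v : ℤ) - u) then 0 else a' v)) ≤ e ^ 2 / 8 * (R : ℝ) ^ 2 := by
      refine le_trans (le_of_eq ?_) h3'
      refine Finset.sum_congr rfl fun u _ => ?_
      rw [Finset.mul_sum]
      refine Finset.sum_congr rfl fun v _ => ?_
      split_ifs
      · rw [mul_zero]
      · rfl
    obtain ⟨u, hu, hX⟩ := LLB_pick e he R hR1 a _ (fun u => (ha u).1) hs h4
    have h5 := LLB_sum R (fun v => b ((v : ℤ) - u)) a' ha' _ hX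
    have h6 : #{v ∈ range R | b (((v : ℕ) : ℤ) - u)} = #{d ∈ Ico (-(u : ℤ)) (-(u : ℤ) + R) | b d} := by
      rw [← LLB_cnt]
      congr 1
      ext v
      simp only [Finset.mem_filter, Finset.mem_range, sub_eq_neg_add]
    rw [h6] at h5
    have h7 := hmid u hu.le
    nlinarith
  · have h4 : ∑ v ∈ range R, a' v * (∑ u ∈ range R, (if b ((v : ℤ) - u) then 0 else a u)) ≤ e ^ 2 / 8 * (R : ℝ) ^ 2 := by
      refine le_trans (le_of_eq ?_) h3'
      rw [Finset.sum_comm]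
      refine Finset.sum_congr rfl fun v _ => ?_
      rw [Finset.mul_sum]
      refine Finset.sum_congr rfl fun u _ => ?_
      split_ifs
      · rw [mul_zero]
      · rw [mul_comm]
    obtain ⟨v, hv, hX⟩ := LLB_pick e he R hR1 a' _ (fun u => (ha' u).1) hs h4
    have h5 := LLB_sum R (fun u => b ((v : ℤ) - u)) a ha _ hX
    have h6 : #{u ∈ range R | b ((v : ℤ) - ((u : ℕ) : ℤ))} = #{d ∈ Ico (-((R - 1 - v : ℕ) : ℤ)) (-((R - 1 - v : ℕ) : ℤ) + R) | b d} := by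
      rw [LLB_cnt']
      have e1 : (v : ℤ) + 1 - R = -((R - 1 - v : ℕ) : ℤ) := by omega
      have e2 : (v : ℤ) + 1 = -((R - 1 - v : ℕ) : ℤ) + R := by omega
      rw [e1, e2]
    rw [h6] at h5
    have h7 := hmid (R - 1 - v) (by omega)
    nlinarith

end Pool.Agent.HF
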